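import Pool.Agent.Helper6.CX.Goals

/-!
MP_75608d_al, project CX, packet STD: facts on the standard embedding.
-/

set_option autoImplicit false

namespace Pool.Agent.Helper16.CX.STD

open Equiv Pool.Agent.Helper6.CX

theorem rot_val {n : ℕ} (x : Fin n) (h : x.val + 1 < n) : (finRotate n x).val = x.val + 1 := by
  obtain ⟨k, rfl⟩ : ∃ k, n = k + 1 := ⟨n - 1, by have := x.2; omega⟩
  rw [coe_finRotate_of_ne_last]
  intro h2
  rw [h2] at h
  simp [Fin.last] at h

theorem rot_pow_val {n : ℕ} (x : Fin n) (j : ℕ) (h : x.val + j < n) :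
    (((finRotate n) ^ j) x).val = x.val + j := by
  induction j with
  | zero => simp
  | succ j ih =>
    have h1 := ih (by omega)
    rw [pow_succ', Perm.mul_apply, rot_val _ (by omega), h1]
    omega

/-- arithmetic: the value determines everything -/
theorem arith (m c c' e e' j j' : ℕ) (he : e ≤ 1) (he' : e' ≤ 1) (hj : j < m)
    (hj' : j' < m) (h : (2 * m + 1) * c + e * m + j = (2 * m + 1) * c' + e' * m + j') :
    c = c' ∧ e = e' ∧ j = j' := by
  have h1 : e * m + j < 2 * m + 1 := by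
    rcases Nat.le_one_iff_eq_zero_or_eq_one.1 he with rfl | rfl <;> omega
  have h2 : e' * m + j' < 2 * m + 1 := by
    rcases Nat.le_one_iff_eq_zero_or_eq_one.1 he' with rfl | rfl <;> omega
  have hc : c = c' := by
    have a1 : ((2 * m + 1) * c + (e * m + j)) / (2 * m + 1) = c := by
      rw [Nat.mul_add_div (by omega), Nat.div_eq_of_lt h1, add_zero]
    have a2 : ((2 * m + 1) * c' + (e' * m + j')) / (2 * m + 1) = c' := by
      rw [Nat.mul_add_div (by omega), Nat.div_eq_of_lt h2, add_zero]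
    rw [← a1, ← a2]
    congr 1
    omega
  subst hc
  refine ⟨rfl, ?_⟩
  have h3 : e * m + j = e' * m + j' := by omega
  rcases Nat.le_one_iff_eq_zero_or_eq_one.1 he with rfl | rfl <;>
  rcases Nat.le_one_iff_eq_zero_or_eq_one.1 he' with rfl | rfl <;> constructor <;> omega

theorem tdiv {N₀ t : ℕ} (ht : t < 2 * N₀) : t % N₀ < N₀ ∧ t / N₀ ≤ 1 := by
  have h0 : 0 < N₀ := by omega
  refine ⟨Nat.mod_lt _ h0, ?_⟩
  have : t / N₀ < 2 := Nat.div_lt_of_lt_mul (by omega)
  omega

theorem teq {N₀ t t' : ℕ} (h1 : t % N₀ = t' % N₀) (h2 : t / N₀ = t' / N₀) : t = t' := by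
  rw [← Nat.div_add_mod t N₀, ← Nat.div_add_mod t' N₀, h1, h2]

theorem bound (n m N₀ : ℕ) (c : ℕ → ℕ) (hc : ∀ i < N₀, (2 * m + 1) * (c i + 1) ≤ n)
    (t : ℕ) (ht : t < 2 * N₀) (j : ℕ) (hj : j ≤ m) :
    (2 * m + 1) * c (t % N₀) + (t / N₀) * m + j < n := by
  obtain ⟨h1, h2⟩ := tdiv ht
  have h3 := hc _ h1
  have h4 : (t / N₀) * m ≤ 1 * m := Nat.mul_le_mul_right _ h2
  rw [Nat.mul_add] at h3
  omega

theorem main : S_STD := by
  constructor
  · intro n N m N₀ c φ hm hS
    obtain ⟨hN, hc, hinj, hval⟩ := hS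
    have hv : ∀ (t : Fin N) (j : ℕ), j < m → (((finRotate n) ^ j) (φ t)).val =
        (2 * m + 1) * c (t.val % N₀) + (t.val / N₀) * m + j := by
      intro t j hj
      have hb := bound n m N₀ c hc t.val (by have := t.2; omega) j hj.le
      rw [rot_pow_val _ _ (by rw [hval]; exact hb), hval]
    constructor
    · intro j hj j' hj' t t' h
      have h1 := congrArg Fin.val h
      rw [hv t j hj, hv t' j' hj'] at h1
      obtain ⟨a1, a2⟩ := tdiv (show t.val < 2 * N₀ by have := t.2; omega)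
      obtain ⟨b1, b2⟩ := tdiv (show t'.val < 2 * N₀ by have := t'.2; omega)
      obtain ⟨e1, e2, e3⟩ := arith m _ _ _ _ j j' a2 b2 hj hj' h1
      exact ⟨e3, Fin.ext (teq (hinj _ a1 _ b1 e1) e2)⟩
    · intro ι hι j hj t
      apply hι
      obtain ⟨a1, a2⟩ := tdiv (show t.val < 2 * N₀ by have := t.2; omega)
      refine ⟨_, a1, ?_⟩
      rw [hv t j hj, add_assoc, Nat.mul_add_div (by omega), Nat.div_eq_of_lt, add_zero]
      have h4 : (t.val / N₀) * m ≤ 1 * m := Nat.mul_le_mul_right _ a2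
      omega
  · intro n m N₀ c hm hc hinj N hN
    refine ⟨⟨fun t => ⟨(2 * m + 1) * c (t.val % N₀) + (t.val / N₀) * m,
      bound n m N₀ c hc t.val (by have := t.2; omega) 0 (Nat.zero_le _)⟩, ?_⟩,
      hN, hc, hinj, fun t => rfl⟩
    intro t t' h
    have h1 := congrArg Fin.val h
    simp only at h1
    obtain ⟨a1, a2⟩ := tdiv (show t.val < 2 * N₀ by have := t.2; omega)
    obtain ⟨b1, b2⟩ := tdiv (show t'.val < 2 * N₀ by have := t'.2; omega)
    obtain ⟨e1, e2, e3⟩ := arith m _ _ _ _ 0 0 a2 b2 (by omega) (by omega)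
      (by rw [Nat.add_zero, Nat.add_zero]; exact h1)
    exact Fin.ext (teq (hinj _ a1 _ b1 e1) e2)

end Pool.Agent.Helper16.CX.STD

namespace Pool.Agent.Helper16.CX

/-- packet STD -/
theorem std : Pool.Agent.Helper6.CX.S_STD := STD.main

end Pool.Agent.Helper16.CX
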